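import Pool.Agent.Lib.MP_c8b0a1_an.Sym.Main

set_option autoImplicit false

namespace Pool.Agent.Lib.MP_c8b0a1_an.Old.SymmetricEndpoint

/-- The restriction estimate in the full conjectured range, endpoint included, for the functions
that are invariant under the orthogonal group of a nondegenerate three-dimensional subspace, given
by an orthogonal basis `w`. -/
theorem result :
    ∀ d : ℕ, 3 ≤ d → ∀ p : ℝ, 1 ≤ p → p ≤ ((2 * d + 6 : ℝ) / (d + 5)) →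
      ∃ C : ℝ, ∀ (F : Type) [Field F] [Fintype F] [DecidableEq F],
        ringChar F ≠ 2 → ∀ ψ : AddChar F ℂ, ψ ≠ 1 → ∀ j : F, j ≠ 0 →
        ((d % 4 = 1 ∧ quadraticChar F j = -1) ∨ (d % 4 = 3 ∧ quadraticChar F (-j) = -1)) →
        ∀ w : Fin 3 → Fin d → F, (∀ a b, a ≠ b → ∑ i, w a i * w b i = 0) →
        (∀ a, ∑ i, w a i ^ 2 ≠ 0) →
        ∀ f : (Fin d → F) → ℂ,
          (∀ x y : Fin d → F, (∃ c : Fin 3 → F, y = x + ∑ a, c a • w a) →
            ∑ i, y i ^ 2 = ∑ i, x i ^ 2 → (∃ a, ∑ i, w a i * x i ≠ 0) →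
            (∃ a, ∑ i, w a i * y i ≠ 0) → f y = f x) →
          Real.sqrt ((1 / ((Finset.univ.filter (fun ξ : Fin d → F => ∑ i, ξ i ^ 2 = j)).card : ℝ)) *
            ∑ ξ ∈ Finset.univ.filter (fun ξ : Fin d → F => ∑ i, ξ i ^ 2 = j),
              ‖∑ x : Fin d → F, f x * ψ (-(∑ i, x i * ξ i))‖ ^ 2)
          ≤ C * (∑ x : Fin d → F, ‖f x‖ ^ p) ^ (1 / p) :=
  fun d hd p hp hp2 => ⟨38, fun _ _ _ _ hF _ hψ _ hj hadm w hw ha f hf =>
    Pool.Agent.Lib.MP_c8b0a1_an.sym_main d hd p hp hp2 hF hψ hj hadm w hw ha f hf⟩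

end Pool.Agent.Lib.MP_c8b0a1_an.Old.SymmetricEndpoint
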